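import Mathlib

/-!
Definitions for `MP_828a2e_co` (Steiner triple systems with a faithful group action).
-/

namespace Pool.Agent.H1.STSGroup

/-- A Steiner triple system with point set `V` : a family of `3`-element subsets (`Finset`s) of `V`
such that every pair of distinct points lies in exactly one of them. -/
structure STS (V : Type*) where
  /-- the triples -/
  blocks : Set (Finset V)
  /-- every triple has exactly three points -/
  card_three : ∀ B ∈ blocks, B.card = 3
  /-- every pair of distinct points lies in exactly one triple -/
  unique_block : ∀ x y : V, x ≠ y → ∃! B : Finset V, B ∈ blocks ∧ x ∈ B ∧ y ∈ B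

/-- The automorphism group of a Steiner triple system `X` : the permutations of the point set that
map the family of triples onto itself. -/
def STS.Aut {V : Type*} (X : STS V) : Subgroup (Equiv.Perm V) where
  carrier := {π | (fun B : Finset V => B.map π.toEmbedding) '' X.blocks = X.blocks}
  one_mem' := by
    have h : (fun B : Finset V => B.map (1 : Equiv.Perm V).toEmbedding) = id := by
      funext B
      exact Finset.map_refl
    simp only [Set.mem_ofPred_eq, h, Set.image_id]
  mul_mem' := by
    intro a b ha hb
    have h : (fun B : Finset V => B.map (a * b).toEmbedding)
        = (fun B : Finset V => B.map a.toEmbedding) ∘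
          (fun B : Finset V => B.map b.toEmbedding) := by
      funext B
      simp only [Function.comp_apply, Finset.map_map]
      rfl
    simp only [Set.mem_ofPred_eq] at ha hb ⊢
    rw [h, Set.image_comp, hb, ha]
  inv_mem' := by
    intro a ha
    simp only [Set.mem_ofPred_eq] at ha ⊢
    have h : (fun B : Finset V => B.map (a⁻¹).toEmbedding) ∘
          (fun B : Finset V => B.map a.toEmbedding) = id := by
      funext B
      simp only [Function.comp_apply, Finset.map_map, id]
      convert Finset.map_refl
      ext x
      simp
    calc (fun B : Finset V => B.map (a⁻¹).toEmbedding) '' X.blocks
        = (fun B : Finset V => B.map (a⁻¹).toEmbedding) ''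
            ((fun B : Finset V => B.map a.toEmbedding) '' X.blocks) := by rw [ha]
      _ = X.blocks := by rw [← Set.image_comp, h, Set.image_id]

/-- The group `G` acts faithfully on the Steiner triple system `X` : `G` is isomorphic to a
subgroup of `Aut X`, i.e. there is an injective homomorphism `G → Aut X`. -/
def STS.FaithfulAction {V : Type*} (X : STS V) (G : Type*) [Group G] : Prop :=
  ∃ φ : G →* X.Aut, Function.Injective φ

end Pool.Agent.H1.STSGroup
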