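import Mathlib
import Pool.Agent.H1.STSGroup.Defs

/-!
Steiner quasigroups, the associated Steiner triple systems, and Bose's construction.
-/

namespace Pool.Agent.H1.STSGroup

/-- A Steiner quasigroup (idempotent totally symmetric quasigroup). -/
structure SQ (V : Type*) where
  T : V → V → V
  idem : ∀ a, T a a = a
  comm : ∀ a b, T a b = T b a
  canc : ∀ a b, T a (T a b) = b

variable {V W : Type*}

theorem SQ.left_ne (Q : SQ V) {a b : V} (h : a ≠ b) : Q.T a b ≠ a := by
  intro h1
  have h2 := Q.canc a b
  rw [h1, Q.idem] at h2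
  exact h h2

theorem SQ.right_ne (Q : SQ V) {a b : V} (h : a ≠ b) : Q.T a b ≠ b := by
  rw [Q.comm]
  exact Q.left_ne h.symm

open Classical in
/-- The Steiner triple system of a Steiner quasigroup. -/
noncomputable def SQ.toSTS (Q : SQ V) : STS V where
  blocks := {B | ∃ a b, a ≠ b ∧ B = {a, b, Q.T a b}}
  card_three := by
    rintro B ⟨a, b, hab, rfl⟩
    exact Finset.card_eq_three.2 ⟨a, b, Q.T a b, hab, (Q.left_ne hab).symm, (Q.right_ne hab).symm, rfl⟩
  unique_block := by
    intro x y hxy
    refine ⟨{x, y, Q.T x y}, ⟨⟨x, y, hxy, rfl⟩, by simp, by simp⟩, ?_⟩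
    rintro B ⟨⟨a, b, hab, rfl⟩, hx, hy⟩
    simp only [Finset.mem_insert, Finset.mem_singleton] at hx hy
    have h1 := Q.canc a b
    have h2 : Q.T b (Q.T a b) = a := by rw [Q.comm a b]; exact Q.canc b a
    have h3 : Q.T (Q.T a b) a = b := by rw [Q.comm]; exact h1
    have h4 : Q.T (Q.T a b) b = a := by rw [Q.comm]; exact h2
    have h5 := Q.comm a b
    rcases hx with rfl | rfl | rfl <;> rcases hy with rfl | rfl | rfl
    · exact absurd rfl hxy
    · rfl
    · rw [h1]; ext z; simp only [Finset.mem_insert, Finset.mem_singleton]; tauto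
    · rw [← h5]; ext z; simp only [Finset.mem_insert, Finset.mem_singleton]; tauto
    · exact absurd rfl hxy
    · rw [h2]; ext z; simp only [Finset.mem_insert, Finset.mem_singleton]; tauto
    · rw [h3]; ext z; simp only [Finset.mem_insert, Finset.mem_singleton]; tauto
    · rw [h4]; ext z; simp only [Finset.mem_insert, Finset.mem_singleton]; tauto
    · exact absurd rfl hxy

theorem SQ.mem_aut (Q : SQ V) (π : Equiv.Perm V) (h : ∀ a b, π (Q.T a b) = Q.T (π a) (π b)) :
    π ∈ Q.toSTS.Aut := by
  classical
  change (fun B : Finset V => B.map π.toEmbedding) '' Q.toSTS.blocks = Q.toSTS.blocks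
  ext B
  constructor
  · rintro ⟨C, ⟨a, b, hab, rfl⟩, rfl⟩
    refine ⟨π a, π b, fun h => hab (π.injective h), ?_⟩
    ext z
    simp [Finset.mem_map, ← h, Finset.mem_insert, eq_comm]
  · rintro ⟨a, b, hab, rfl⟩
    refine ⟨{π.symm a, π.symm b, Q.T (π.symm a) (π.symm b)},
      ⟨π.symm a, π.symm b, fun h => hab (π.symm.injective h), rfl⟩, ?_⟩
    ext z
    simp [Finset.mem_map, h, Finset.mem_insert, eq_comm]

/-- Transport of a Steiner quasigroup along an equivalence. -/
def SQ.transport (Q : SQ V) (e : V ≃ W) : SQ W where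
  T a b := e (Q.T (e.symm a) (e.symm b))
  idem a := by simp [Q.idem]
  comm a b := by rw [Q.comm]
  canc a b := by simp [Q.canc]

/-- Bose's construction. -/
theorem exists_bose (q : ℕ) (hq : Odd q) : Nonempty (SQ (ZMod q × ZMod 3)) := by
  classical
  obtain ⟨k, hk⟩ := hq
  have h2 : ((k + 1 : ℕ) : ZMod q) * 2 = 1 := by
    have : (((k + 1) * 2 : ℕ) : ZMod q) = ((q + 1 : ℕ) : ZMod q) := by
      congr 1; omega
    push_cast at this
    rw [ZMod.natCast_self] at this
    push_cast
    rw [this]; ring
  set h : ZMod q := ((k + 1 : ℕ) : ZMod q) with hh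
  have hcancel : ∀ a b : ZMod q, 2 * a = 2 * b → a = b := by
    intro a b hab
    have := congrArg (fun z => h * z) hab
    simp only [← mul_assoc, h2, one_mul] at this
    exact this
  have e1 : ∀ i : ZMod 3, i + 1 ≠ i := by decide
  have e2 : ∀ i : ZMod 3, i + 2 ≠ i := by decide
  have e3 : ∀ i : ZMod 3, i + 2 ≠ i + 1 := by decide
  have e4 : ∀ i j : ZMod 3, i ≠ j → j ≠ i + 1 → i = j + 1 := by decide
  have e5 : ∀ i : ZMod 3, i + 1 + 1 ≠ i := by decide
  have e6 : ∀ i : ZMod 3, i + 1 + 2 = i := by decide
  have e7 : ∀ i : ZMod 3, i + 1 + 1 = i + 2 := by decide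
  have e8 : ∀ i : ZMod 3, i ≠ i + 1 := by decide
  have e9 : ∀ i : ZMod 3, i ≠ i + 2 := by decide
  have e10 : ∀ i : ZMod 3, i ≠ i + 1 + 1 := by decide
  have e11 : ∀ i : ZMod 3, i + 2 + 2 = i + 1 := by decide
  have m1 : ∀ a b : ZMod q, a ≠ b → a ≠ h * (a + b) := by
    intro a b hab hc
    apply hab
    apply hcancel
    have := congrArg (fun z => 2 * z) hc
    have e : 2 * (h * (a + b)) = a + b := by
      rw [← mul_assoc, mul_comm 2 h, h2, one_mul]
    simp only [e] at this
    linear_combination 2 * this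
  have m2 : ∀ a b : ZMod q, a ≠ b → a ≠ 2 * b - a := by
    intro a b hab hc
    apply hab
    apply hcancel
    linear_combination hc
  have m3 : ∀ a b : ZMod q, 2 * (h * (a + b)) - a = b := by
    intro a b
    linear_combination (a + b) * h2
  have m4 : ∀ a b : ZMod q, h * (a + (2 * b - a)) = b := by
    intro a b
    linear_combination b * h2
  have m5 : ∀ b : ZMod q, h * (2 * b) = b := by
    intro b
    linear_combination b * h2
  have f1 : (2 : ZMod 3) ≠ 0 := by decide
  have f2 : (1 : ZMod 3) ≠ 0 := by decide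
  have f3 : (2 : ZMod 3) ≠ 1 := by decide
  have f4 : (1 : ZMod 3) ≠ 2 := by decide
  refine ⟨⟨fun x y => if x.2 = y.2 then (if x.1 = y.1 then x else (h * (x.1 + y.1), x.2 + 1))
    else if y.2 = x.2 + 1 then (if x.1 = y.1 then (x.1, x.2 + 2) else (2 * y.1 - x.1, x.2))
    else (if x.1 = y.1 then (x.1, y.2 + 2) else (2 * x.1 - y.1, y.2)), ?_, ?_, ?_⟩⟩
  · rintro ⟨a, i⟩
    simp
  · rintro ⟨a, i⟩ ⟨b, j⟩
    simp only
    by_cases hij : i = j
    · subst hij
      by_cases hab : a = b
      · subst hab; simp
      · have hba : b ≠ a := fun h => hab h.symm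
        simp [hab, hba, add_comm]
    · have hji : j ≠ i := fun h => hij h.symm
      by_cases h1 : j = i + 1
      · subst h1
        by_cases hab : a = b
        · subst hab; simp [e1, e10, e8]
        · have hba : b ≠ a := fun h => hab h.symm
          simp [hab, hba, e1, e10, e8]
      · have h2 := e4 i j hij h1
        subst h2
        by_cases hab : a = b
        · subst hab; simp [e1, e10, e8]
        · have hba : b ≠ a := fun h => hab h.symm
          simp [hab, hba, e1, e10, e8]
  · rintro ⟨a, i⟩ ⟨b, j⟩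
    simp only
    by_cases hij : i = j
    · subst hij
      by_cases hab : a = b
      · subst hab; simp
      · simp [hab, e8, m1 a b hab, m3]
    · have hji : j ≠ i := fun h => hij h.symm
      by_cases h1 : j = i + 1
      · subst h1
        by_cases hab : a = b
        · subst hab; simp [e8, e9, e3, e11]
        · simp [hab, e8, m2 a b hab, m5]
      · have h2 := e4 i j hij h1
        subst h2
        by_cases hab : a = b
        · subst hab; simp [e1, e6, e7, f1, f3, f4, e3, e2]
        · have h3 : a ≠ 2 * a - b := by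
            intro hc
            apply hab
            linear_combination -hc
          simp [hab, e1, e10, h3]

theorem exists_sq_of_card [Fintype V] (q : ℕ) (hq : Odd q) (h : Fintype.card V = 3 * q) :
    Nonempty (SQ V) := by
  obtain ⟨Q⟩ := exists_bose q hq
  have : NeZero q := ⟨by rintro rfl; simp at hq⟩
  have hc : Fintype.card (ZMod q × ZMod 3) = Fintype.card V := by
    rw [Fintype.card_prod, ZMod.card, ZMod.card, h, mul_comm]
  exact ⟨Q.transport (Fintype.equivOfCardEq hc)⟩

end Pool.Agent.H1.STSGroup
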