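import Mathlib
import Pool.Agent.H1.STSGroup.Quasi

/-!
The main construction: a Steiner quasigroup on `Y ⊕ (Γ × E)` on which `Γ` acts.
-/

namespace Pool.Agent.H1.STSGroup

/-- The data used in the construction. -/
structure Data (Γ E : Type*) [Group Γ] [AddCommGroup E] where
  s0 : Γ
  hs0 : s0 ≠ 1
  hs03 : s0 * s0 * s0 = 1
  enc : Γ → ℕ
  henc : Function.Injective enc
  two : ∀ e : E, e + e = 0
  o : E → E → Prop
  ho : ∀ e, e ≠ 0 → ∀ p, (o e (p + e) ↔ ¬ o e p)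
  side : E → ZMod 2
  eps : Γ → ZMod 2 → E
  heps : ∀ s a s' a', eps s a = eps s' a' → s = s' ∧ a = a'
  heps0 : ∀ s a, eps s a ≠ 0
  hside : ∀ s a p, o (eps s a) p ↔ side p = a

variable {Γ E : Type*} [Group Γ] [AddCommGroup E] (D : Data Γ E)

namespace Data

/-- the chosen representatives of the pairs `{s, s⁻¹}` -/
def pos (s : Γ) : Prop :=
  s * s ≠ 1 ∧ s ≠ D.s0 ∧ s ≠ D.s0⁻¹ ∧ D.enc s < D.enc s⁻¹

/-- the colours used by the triangles -/
def used (e : E) (c : Γ) : Prop :=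
  ∃ s a, D.pos s ∧ e = D.eps s a ∧ (c = 1 ∨ c = s⁻¹)

/-- the colours -/
abbrev Y : Type _ :=
  {t : Γ // t ≠ 1 ∧ t * t = 1} ⊕ {ec : E × Γ // ec.1 ≠ 0 ∧ ¬ D.used ec.1 ec.2}

open Classical in
/-- the group element attached to `e` -/
noncomputable def sig (e : E) : Γ :=
  if h : ∃ s a, e = D.eps s a then Classical.choose h else 1

theorem sig_eps (s : Γ) (a : ZMod 2) : D.sig (D.eps s a) = s := by
  have h : ∃ s' a', D.eps s a = D.eps s' a' := ⟨s, a, rfl⟩
  unfold sig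
  rw [dif_pos h]
  obtain ⟨a', ha'⟩ := Classical.choose_spec h
  exact (D.heps _ _ _ _ ha').1.symm

open Classical in
/-- two points of the same column -/
noncomputable def Din (x x' : Γ) (p : E) : D.Y ⊕ (Γ × E) :=
  if x = x' then Sum.inr (x, p)
  else if h : x⁻¹ * x' ≠ 1 ∧ (x⁻¹ * x') * (x⁻¹ * x') = 1 then Sum.inl (Sum.inl ⟨x⁻¹ * x', h⟩)
  else if x⁻¹ * x' = D.s0 ∨ x⁻¹ * x' = D.s0⁻¹ then Sum.inr (x * (x⁻¹ * x')⁻¹, p)
  else if D.enc (x⁻¹ * x') < D.enc (x⁻¹ * x')⁻¹ then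
    Sum.inr (x, p + D.eps (x⁻¹ * x') (D.side p))
  else Sum.inr (x', p + D.eps (x⁻¹ * x')⁻¹ (D.side p))

open Classical in
/-- two points of different columns, the first being the tail -/
noncomputable def Dx (x : Γ) (p : E) (x' : Γ) (q : E) : D.Y ⊕ (Γ × E) :=
  if h : p + q ≠ 0 ∧ ¬ D.used (p + q) (x⁻¹ * x') then
    Sum.inl (Sum.inr ⟨(p + q, x⁻¹ * x'), h⟩)
  else if x = x' then Sum.inr (x * D.sig (p + q), p)
  else Sum.inr (x', p)

open Classical in
/-- the third point of the block of two points of `Γ × E` -/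
noncomputable def D3 (w w' : Γ × E) : D.Y ⊕ (Γ × E) :=
  if w.2 = w'.2 then D.Din w.1 w'.1 w.2
  else if D.o (w.2 + w'.2) w.2 then D.Dx w.1 w.2 w'.1 w'.2
  else D.Dx w'.1 w'.2 w.1 w.2

open Classical in
/-- the perfect matching of a colour -/
noncomputable def M : D.Y → (Γ × E) → (Γ × E)
  | Sum.inl t, w => (w.1 * t.1, w.2)
  | Sum.inr ec, w =>
      if D.o ec.1.1 w.2 then (w.1 * ec.1.2, w.2 + ec.1.1) else (w.1 * ec.1.2⁻¹, w.2 + ec.1.1)

include D in
theorem add_self (e : E) : e + e = 0 := D.two e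

include D in
theorem add_add_cancel (p e : E) : p + (p + e) = e := by
  rw [← add_assoc, D.two, zero_add]

include D in
theorem add_add_cancel' (p e : E) : p + e + p = e := by
  rw [add_comm p e, add_assoc, D.two, add_zero]

include D in
theorem add_add_cancel'' (p e : E) : p + e + e = p := by
  rw [add_assoc, D.two, add_zero]

include D in
theorem ne_add {e : E} (he : e ≠ 0) (p : E) : p ≠ p + e := by
  intro h
  exact he (left_eq_add.mp h)

theorem s0_sq : D.s0 * D.s0 = D.s0⁻¹ := by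
  have := D.hs03
  exact eq_inv_of_mul_eq_one_left this

theorem s0_inv_inv : D.s0⁻¹ * D.s0⁻¹ = D.s0 := by
  rw [← mul_inv_rev, D.s0_sq, inv_inv]

theorem s0_ne_inv : D.s0 ≠ D.s0⁻¹ := by
  intro h
  have h1 := D.s0_sq
  rw [← h] at h1
  exact D.hs0 (mul_eq_left.mp h1)

theorem D3_self (w : Γ × E) : D.D3 w w = Sum.inr w := by
  simp [D3, Din]

theorem D3_inv (x : Γ) (p : E) (t : Γ) (ht : t ≠ 1 ∧ t * t = 1) :
    D.D3 (x, p) (x * t, p) = Sum.inl (Sum.inl ⟨t, ht⟩) := by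
  have h1 : x ≠ x * t := fun h => ht.1 (left_eq_mul.mp h)
  unfold D3
  simp only [if_true]
  unfold Din
  rw [if_neg h1, dif_pos (by rw [inv_mul_cancel_left]; exact ht)]
  simp

theorem D3_short (x : Γ) (p : E) :
    D.D3 (x, p) (x * D.s0, p) = Sum.inr (x * D.s0⁻¹, p) := by
  have h1 : x ≠ x * D.s0 := fun h => D.hs0 (left_eq_mul.mp h)
  have h2 : ¬ (D.s0 ≠ 1 ∧ D.s0 * D.s0 = 1) := by
    rintro ⟨-, h⟩
    have := D.hs03
    rw [h, one_mul] at this
    exact D.hs0 this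
  unfold D3
  simp only [if_true]
  unfold Din
  rw [if_neg h1, dif_neg (by rw [inv_mul_cancel_left]; exact h2),
    if_pos (by rw [inv_mul_cancel_left]; exact Or.inl rfl), inv_mul_cancel_left]

theorem D3_short' (x : Γ) (p : E) :
    D.D3 (x, p) (x * D.s0⁻¹, p) = Sum.inr (x * D.s0, p) := by
  have h0 : D.s0⁻¹ ≠ 1 := fun h => D.hs0 (inv_eq_one.mp h)
  have h1 : x ≠ x * D.s0⁻¹ := fun h => h0 (left_eq_mul.mp h)
  have h2 : ¬ (D.s0⁻¹ ≠ 1 ∧ D.s0⁻¹ * D.s0⁻¹ = 1) := by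
    rintro ⟨-, h⟩
    rw [D.s0_inv_inv] at h
    exact D.hs0 h
  unfold D3
  simp only [if_true]
  unfold Din
  rw [if_neg h1, dif_neg (by rw [inv_mul_cancel_left]; exact h2),
    if_pos (by rw [inv_mul_cancel_left]; exact Or.inr rfl), inv_mul_cancel_left, inv_inv]

theorem pos_ne_one {s : Γ} (hs : D.pos s) : s ≠ 1 := by
  rintro rfl
  exact hs.1 (by simp)

theorem D3_pos (x : Γ) (p : E) (s : Γ) (hs : D.pos s) :
    D.D3 (x, p) (x * s, p) = Sum.inr (x, p + D.eps s (D.side p)) := by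
  have h1 : x ≠ x * s := fun h => D.pos_ne_one hs (left_eq_mul.mp h)
  have h2 : ¬ (s ≠ 1 ∧ s * s = 1) := fun h => hs.1 h.2
  have h3 : ¬ (s = D.s0 ∨ s = D.s0⁻¹) := by
    rintro (h | h)
    · exact hs.2.1 h
    · exact hs.2.2.1 h
  unfold D3
  simp only [if_true]
  unfold Din
  rw [if_neg h1, dif_neg (by rw [inv_mul_cancel_left]; exact h2),
    if_neg (by rw [inv_mul_cancel_left]; exact h3),
    if_pos (by rw [inv_mul_cancel_left]; exact hs.2.2.2), inv_mul_cancel_left]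

theorem D3_neg (x : Γ) (p : E) (s : Γ) (hs : D.pos s) :
    D.D3 (x * s, p) (x, p) = Sum.inr (x, p + D.eps s (D.side p)) := by
  have h1 : x * s ≠ x := fun h => D.pos_ne_one hs (mul_eq_left.mp h)
  have e : (x * s)⁻¹ * x = s⁻¹ := by simp
  have h2 : ¬ (s⁻¹ ≠ 1 ∧ s⁻¹ * s⁻¹ = 1) := by
    rintro ⟨-, h⟩
    rw [← mul_inv_rev, inv_eq_one] at h
    exact hs.1 h
  have h3 : ¬ (s⁻¹ = D.s0 ∨ s⁻¹ = D.s0⁻¹) := by
    rintro (h | h)
    · exact hs.2.2.1 (inv_eq_iff_eq_inv.mp h)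
    · exact hs.2.1 (inv_injective h)
  have h4 : ¬ (D.enc s⁻¹ < D.enc s⁻¹⁻¹) := by
    rw [inv_inv]
    exact not_lt.mpr hs.2.2.2.le
  unfold D3
  simp only [if_true]
  unfold Din
  rw [if_neg h1, dif_neg (by rw [e]; exact h2), if_neg (by rw [e]; exact h3),
    if_neg (by rw [e]; exact h4), e, inv_inv]

theorem used_one (s : Γ) (a : ZMod 2) (hs : D.pos s) : D.used (D.eps s a) 1 :=
  ⟨s, a, hs, rfl, Or.inl rfl⟩

theorem used_inv (s : Γ) (a : ZMod 2) (hs : D.pos s) : D.used (D.eps s a) s⁻¹ :=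
  ⟨s, a, hs, rfl, Or.inr rfl⟩

theorem D3_tail (x x' : Γ) (p e : E) (he : e ≠ 0) (h : D.o e p) :
    D.D3 (x, p) (x', p + e) = D.Dx x p x' (p + e) := by
  unfold D3
  rw [if_neg (D.ne_add he p)]
  simp only
  rw [D.add_add_cancel, if_pos h]

theorem D3_head (x x' : Γ) (p e : E) (he : e ≠ 0) (h : D.o e p) :
    D.D3 (x', p + e) (x, p) = D.Dx x p x' (p + e) := by
  unfold D3
  rw [if_neg (D.ne_add he p).symm]
  simp only
  rw [D.add_add_cancel', if_neg (by rw [D.ho e he p]; exact not_not.mpr h)]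

theorem Dx_one (x : Γ) (p : E) (s : Γ) (a : ZMod 2) (hs : D.pos s) :
    D.Dx x p x (p + D.eps s a) = Sum.inr (x * s, p) := by
  unfold Dx
  rw [dif_neg, if_pos rfl, D.add_add_cancel, D.sig_eps]
  rw [D.add_add_cancel, inv_mul_cancel]
  exact fun h => h.2 (D.used_one s a hs)

theorem Dx_inv (x : Γ) (p : E) (s : Γ) (a : ZMod 2) (hs : D.pos s) :
    D.Dx (x * s) p x (p + D.eps s a) = Sum.inr (x, p) := by
  have h1 : x * s ≠ x := fun h => D.pos_ne_one hs (mul_eq_left.mp h)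
  have e : (x * s)⁻¹ * x = s⁻¹ := by simp
  unfold Dx
  rw [dif_neg, if_neg h1]
  rw [D.add_add_cancel, e]
  exact fun h => h.2 (D.used_inv s a hs)

theorem Dx_col (x : Γ) (p : E) (e : E) (c : Γ) (h : e ≠ 0 ∧ ¬ D.used e c) :
    D.Dx x p (x * c) (p + e) = Sum.inl (Sum.inr ⟨(e, c), h⟩) := by
  unfold Dx
  rw [dif_pos (by rw [D.add_add_cancel, inv_mul_cancel_left]; exact h)]
  simp [D.add_add_cancel]

/-- The type of a pair of points of `Γ × E`. -/
inductive PairType : (Γ × E) → (Γ × E) → Prop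
  | self (w) : PairType w w
  | inv (x p t) (ht : t ≠ 1 ∧ t * t = 1) : PairType (x, p) (x * t, p)
  | short (x p) : PairType (x, p) (x * D.s0, p)
  | short' (x p) : PairType (x, p) (x * D.s0⁻¹, p)
  | pos (x p s) (hs : D.pos s) : PairType (x, p) (x * s, p)
  | neg (x p s) (hs : D.pos s) : PairType (x * s, p) (x, p)
  | t1 (x p s) (hs : D.pos s) : PairType (x, p) (x, p + D.eps s (D.side p))
  | t2 (x p s) (hs : D.pos s) : PairType (x * s, p) (x, p + D.eps s (D.side p))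
  | h1 (x p s) (hs : D.pos s) : PairType (x, p + D.eps s (D.side p)) (x, p)
  | h2 (x p s) (hs : D.pos s) : PairType (x, p + D.eps s (D.side p)) (x * s, p)
  | tc (x p e c) (h : e ≠ 0 ∧ ¬ D.used e c) (ho : D.o e p) : PairType (x, p) (x * c, p + e)
  | hc (x p e c) (h : e ≠ 0 ∧ ¬ D.used e c) (ho : D.o e p) : PairType (x * c, p + e) (x, p)

theorem pairType_column (x x' : Γ) (p : E) : D.PairType (x, p) (x', p) := by
  obtain ⟨s, rfl⟩ : ∃ s, x' = x * s := ⟨x⁻¹ * x', by simp⟩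
  by_cases h1 : s = 1
  · subst h1
    rw [mul_one]
    exact PairType.self _
  by_cases h2 : s * s = 1
  · exact PairType.inv x p s ⟨h1, h2⟩
  by_cases h3 : s = D.s0
  · subst h3
    exact PairType.short x p
  by_cases h4 : s = D.s0⁻¹
  · subst h4
    exact PairType.short' x p
  by_cases h5 : D.enc s < D.enc s⁻¹
  · exact PairType.pos x p s ⟨h2, h3, h4, h5⟩
  · have h6 : D.pos s⁻¹ := by
      refine ⟨?_, ?_, ?_, ?_⟩
      · rw [← mul_inv_rev]
        exact fun h => h2 (inv_eq_one.mp h)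
      · exact fun h => h4 (inv_eq_iff_eq_inv.mp h)
      · exact fun h => h3 (inv_injective h)
      · rw [inv_inv]
        refine lt_of_le_of_ne (not_lt.mp h5) ?_
        intro h
        have h7 := D.henc h
        apply h2
        nth_rewrite 1 [← h7]
        simp
    have := PairType.neg (D := D) (x * s) p s⁻¹ h6
    rwa [mul_inv_cancel_right] at this

/-- auxiliary: tail to head pairs -/
theorem pairType_tail (x x' : Γ) (p e : E) (he : e ≠ 0) (h : D.o e p) :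
    D.PairType (x, p) (x', p + e) ∧ D.PairType (x', p + e) (x, p) := by
  obtain ⟨c, rfl⟩ : ∃ c, x' = x * c := ⟨x⁻¹ * x', by simp⟩
  by_cases hu : D.used e c
  · obtain ⟨s, a, hs, rfl, hc⟩ := hu
    have ha : D.side p = a := (D.hside s a p).mp h
    subst ha
    rcases hc with rfl | rfl
    · rw [mul_one]
      exact ⟨PairType.t1 x p s hs, PairType.h1 x p s hs⟩
    · have h1 := PairType.t2 (D := D) (x * s⁻¹) p s hs
      have h2 := PairType.h2 (D := D) (x * s⁻¹) p s hs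
      rw [inv_mul_cancel_right] at h1 h2
      exact ⟨h1, h2⟩
  · exact ⟨PairType.tc x p e c ⟨he, hu⟩ h, PairType.hc x p e c ⟨he, hu⟩ h⟩

theorem pairType (w w' : Γ × E) : D.PairType w w' := by
  obtain ⟨x, p⟩ := w
  obtain ⟨x', q⟩ := w'
  by_cases hpq : p = q
  · subst hpq
    exact D.pairType_column x x' p
  · obtain ⟨e, rfl⟩ : ∃ e, q = p + e := ⟨p + q, (D.add_add_cancel p q).symm⟩
    have he : e ≠ 0 := by
      rintro rfl
      exact hpq (by simp)
    by_cases h : D.o e p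
    · exact (D.pairType_tail x x' p e he h).1
    · have h' : D.o e (p + e) := (D.ho e he p).mpr h
      have := (D.pairType_tail x' x (p + e) e he h').2
      rwa [D.add_add_cancel''] at this

theorem o_side (s : Γ) (p : E) : D.o (D.eps s (D.side p)) p := (D.hside _ _ _).mpr rfl

/-- Symmetry of `D3`. -/
theorem D3_comm (w w' : Γ × E) : D.D3 w w' = D.D3 w' w := by
  cases D.pairType w w' with
  | self => rfl
  | inv x p t ht =>
    rw [D.D3_inv x p t ht]
    have := D.D3_inv (x * t) p t ht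
    rw [mul_assoc, ht.2, mul_one] at this
    exact this.symm
  | short x p =>
    rw [D.D3_short]
    have := D.D3_short' (x * D.s0) p
    rw [mul_inv_cancel_right, mul_assoc, D.s0_sq] at this
    exact this.symm
  | short' x p =>
    rw [D.D3_short']
    have := D.D3_short (x * D.s0⁻¹) p
    rw [inv_mul_cancel_right, mul_assoc, D.s0_inv_inv] at this
    exact this.symm
  | pos x p s hs => rw [D.D3_pos x p s hs, D.D3_neg x p s hs]
  | neg x p s hs => rw [D.D3_pos x p s hs, D.D3_neg x p s hs]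
  | t1 x p s hs =>
    rw [D.D3_tail _ _ _ _ (D.heps0 _ _) (D.o_side s p),
      D.D3_head _ _ _ _ (D.heps0 _ _) (D.o_side s p)]
  | t2 x p s hs =>
    rw [D.D3_tail _ _ _ _ (D.heps0 _ _) (D.o_side s p),
      D.D3_head _ _ _ _ (D.heps0 _ _) (D.o_side s p)]
  | h1 x p s hs =>
    rw [D.D3_tail _ _ _ _ (D.heps0 _ _) (D.o_side s p),
      D.D3_head _ _ _ _ (D.heps0 _ _) (D.o_side s p)]
  | h2 x p s hs =>
    rw [D.D3_tail _ _ _ _ (D.heps0 _ _) (D.o_side s p),
      D.D3_head _ _ _ _ (D.heps0 _ _) (D.o_side s p)]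
  | tc x p e c h ho => rw [D.D3_tail _ _ _ _ h.1 ho, D.D3_head _ _ _ _ h.1 ho]
  | hc x p e c h ho => rw [D.D3_tail _ _ _ _ h.1 ho, D.D3_head _ _ _ _ h.1 ho]

/-- The third point of a pair. -/
theorem D3_spec (w w' : Γ × E) :
    (∃ y, D.D3 w w' = Sum.inl y ∧ D.M y w = w') ∨
    (∃ z, D.D3 w w' = Sum.inr z ∧ D.D3 w z = Sum.inr w') := by
  cases D.pairType w w' with
  | self => exact Or.inr ⟨w, D.D3_self w, D.D3_self w⟩
  | inv x p t ht => exact Or.inl ⟨_, D.D3_inv x p t ht, rfl⟩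
  | short x p => exact Or.inr ⟨_, D.D3_short x p, D.D3_short' x p⟩
  | short' x p => exact Or.inr ⟨_, D.D3_short' x p, D.D3_short x p⟩
  | pos x p s hs =>
    refine Or.inr ⟨_, D.D3_pos x p s hs, ?_⟩
    rw [D.D3_tail _ _ _ _ (D.heps0 _ _) (D.o_side s p), D.Dx_one _ _ _ _ hs]
  | neg x p s hs =>
    refine Or.inr ⟨_, D.D3_neg x p s hs, ?_⟩
    rw [D.D3_tail _ _ _ _ (D.heps0 _ _) (D.o_side s p), D.Dx_inv _ _ _ _ hs]
  | t1 x p s hs =>
    refine Or.inr ⟨(x * s, p), ?_, D.D3_pos x p s hs⟩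
    rw [D.D3_tail _ _ _ _ (D.heps0 _ _) (D.o_side s p), D.Dx_one _ _ _ _ hs]
  | t2 x p s hs =>
    refine Or.inr ⟨(x, p), ?_, D.D3_neg x p s hs⟩
    rw [D.D3_tail _ _ _ _ (D.heps0 _ _) (D.o_side s p), D.Dx_inv _ _ _ _ hs]
  | h1 x p s hs =>
    refine Or.inr ⟨(x * s, p), ?_, ?_⟩
    · rw [D.D3_head _ _ _ _ (D.heps0 _ _) (D.o_side s p), D.Dx_one _ _ _ _ hs]
    · rw [D.D3_head _ _ _ _ (D.heps0 _ _) (D.o_side s p), D.Dx_inv _ _ _ _ hs]
  | h2 x p s hs =>
    refine Or.inr ⟨(x, p), ?_, ?_⟩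
    · rw [D.D3_head _ _ _ _ (D.heps0 _ _) (D.o_side s p), D.Dx_inv _ _ _ _ hs]
    · rw [D.D3_head _ _ _ _ (D.heps0 _ _) (D.o_side s p), D.Dx_one _ _ _ _ hs]
  | tc x p e c h ho =>
    refine Or.inl ⟨Sum.inr ⟨(e, c), h⟩, ?_, ?_⟩
    · rw [D.D3_tail _ _ _ _ h.1 ho, D.Dx_col x p e c h]
    · simp [M, ho]
  | hc x p e c h ho =>
    refine Or.inl ⟨Sum.inr ⟨(e, c), h⟩, ?_, ?_⟩
    · rw [D.D3_head _ _ _ _ h.1 ho, D.Dx_col x p e c h]
    · simp [M, D.ho e h.1, ho, D.add_add_cancel'']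

theorem M_M (y : D.Y) (w : Γ × E) : D.M y (D.M y w) = w := by
  obtain ⟨x, p⟩ := w
  rcases y with ⟨t, ht⟩ | ⟨⟨e, c⟩, h⟩
  · simp [M, mul_assoc, ht.2]
  · by_cases ho : D.o e p
    · simp [M, ho, D.ho e h.1, D.add_add_cancel'']
    · simp [M, ho, D.ho e h.1, D.add_add_cancel'']

theorem D3_M (y : D.Y) (w : Γ × E) : D.D3 w (D.M y w) = Sum.inl y := by
  obtain ⟨x, p⟩ := w
  rcases y with ⟨t, ht⟩ | ⟨⟨e, c⟩, h⟩
  · exact D.D3_inv x p t ht
  · by_cases ho : D.o e p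
    · have : D.M (Sum.inr ⟨(e, c), h⟩) (x, p) = (x * c, p + e) := by simp [M, ho]
      rw [this, D.D3_tail _ _ _ _ h.1 ho, D.Dx_col x p e c h]
    · have : D.M (Sum.inr ⟨(e, c), h⟩) (x, p) = (x * c⁻¹, p + e) := by simp [M, ho]
      rw [this]
      have ho' : D.o e (p + e) := (D.ho e h.1 p).mpr ho
      have h1 := D.D3_head (x * c⁻¹) x (p + e) e h.1 ho'
      rw [D.add_add_cancel''] at h1
      rw [h1]
      have h2 := D.Dx_col (x * c⁻¹) (p + e) e c h
      rw [inv_mul_cancel_right, D.add_add_cancel''] at h2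
      exact h2

/-- The Steiner quasigroup operation on `Y ⊕ (Γ × E)`. -/
noncomputable def T (Q : SQ D.Y) : (D.Y ⊕ (Γ × E)) → (D.Y ⊕ (Γ × E)) → (D.Y ⊕ (Γ × E))
  | Sum.inl y, Sum.inl y' => Sum.inl (Q.T y y')
  | Sum.inl y, Sum.inr w => Sum.inr (D.M y w)
  | Sum.inr w, Sum.inl y => Sum.inr (D.M y w)
  | Sum.inr w, Sum.inr w' => D.D3 w w'

/-- The Steiner quasigroup on `Y ⊕ (Γ × E)`. -/
noncomputable def sq (Q : SQ D.Y) : SQ (D.Y ⊕ (Γ × E)) where
  T := D.T Q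
  idem := by
    rintro (y | w)
    · simp [T, Q.idem]
    · simp [T, D.D3_self]
  comm := by
    rintro (y | w) (y' | w')
    · simp [T, Q.comm y y']
    · rfl
    · rfl
    · exact D.D3_comm w w'
  canc := by
    rintro (y | w) (y' | w')
    · simp [T, Q.canc]
    · simp [T, D.M_M]
    · simp [T, D.D3_M]
    · rcases D.D3_spec w w' with ⟨y, h1, h2⟩ | ⟨z, h1, h2⟩
      · simp [T, h1, h2]
      · simp [T, h1, h2]

/-- The action of `Γ` on `Y ⊕ (Γ × E)`. -/
def act (g : Γ) : (D.Y ⊕ (Γ × E)) → (D.Y ⊕ (Γ × E))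
  | Sum.inl y => Sum.inl y
  | Sum.inr w => Sum.inr (g * w.1, w.2)

theorem D3_act (g : Γ) (w w' : Γ × E) :
    D.D3 (g * w.1, w.2) (g * w'.1, w'.2) = D.act g (D.D3 w w') := by
  have key : ∀ x x' : Γ, (g * x)⁻¹ * (g * x') = x⁻¹ * x' := by
    intro x x'
    rw [mul_inv_rev, mul_assoc, inv_mul_cancel_left]
  have hDx : ∀ x p x' q, D.Dx (g * x) p (g * x') q = D.act g (D.Dx x p x' q) := by
    intro x p x' q
    by_cases h : p + q ≠ 0 ∧ ¬ D.used (p + q) (x⁻¹ * x')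
    · unfold Dx
      rw [dif_pos h, dif_pos (by rw [key]; exact h)]
      simp [act, key]
    · unfold Dx
      rw [dif_neg h, dif_neg (by rw [key]; exact h)]
      by_cases h2 : x = x'
      · subst h2
        simp [act, mul_assoc]
      · simp [act, h2]
  have hDin : ∀ x x' p, D.Din (g * x) (g * x') p = D.act g (D.Din x x' p) := by
    intro x x' p
    by_cases h : x = x'
    · subst h
      simp [Din, act]
    · have h' : g * x ≠ g * x' := fun hh => h (mul_left_cancel hh)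
      unfold Din
      rw [if_neg h, if_neg h']
      by_cases h2 : x⁻¹ * x' ≠ 1 ∧ (x⁻¹ * x') * (x⁻¹ * x') = 1
      · rw [dif_pos h2, dif_pos (by rw [key]; exact h2)]
        simp [act, key]
      · rw [dif_neg h2, dif_neg (by rw [key]; exact h2), key]
        split_ifs <;> simp [act, mul_assoc]
  unfold D3
  simp only [hDx, hDin]
  split_ifs <;> rfl

theorem M_act (g : Γ) (y : D.Y) (w : Γ × E) :
    D.M y (g * w.1, w.2) = (g * (D.M y w).1, (D.M y w).2) := by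
  rcases y with t | ec
  · simp [M, mul_assoc]
  · simp only [M]
    split_ifs <;> simp [mul_assoc]

theorem T_act (Q : SQ D.Y) (g : Γ) (a b : D.Y ⊕ (Γ × E)) :
    D.T Q (D.act g a) (D.act g b) = D.act g (D.T Q a b) := by
  rcases a with y | w <;> rcases b with y' | w'
  · rfl
  · simp [T, act, D.M_act]
  · simp [T, act, D.M_act]
  · simp only [T, act]
    exact D.D3_act g w w'

end Data

end Pool.Agent.H1.STSGroup
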