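import Mathlib
import Pool.Agent.H1.STSGroup.Main

/-!
Counting the colours and the final theorem.
-/

namespace Pool.Agent.H1.STSGroup

open Finset

variable {Γ E : Type*} [Group Γ] [AddCommGroup E] (D : Data Γ E)

namespace Data

theorem card_group [Fintype Γ] : 
    Nat.card Γ = 3 + Nat.card {t : Γ // t ≠ 1 ∧ t * t = 1} + 2 * Nat.card {s : Γ // D.pos s} := by
  classical
  have key : ∀ s : Γ, (1 : ℕ) = (if s = 1 then 1 else 0) + (if (s ≠ 1 ∧ s * s = 1) then 1 else 0)
      + (if s = D.s0 then 1 else 0) + (if s = D.s0⁻¹ then 1 else 0)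
      + (if D.pos s then 1 else 0) + (if D.pos s⁻¹ then 1 else 0) := by
    intro s
    have n1 : D.s0 ≠ 1 := D.hs0
    have n2 : D.s0⁻¹ ≠ 1 := fun h => D.hs0 (inv_eq_one.mp h)
    have n3 : D.s0 * D.s0 ≠ 1 := by rw [D.s0_sq]; exact n2
    have n4 : D.s0⁻¹ * D.s0⁻¹ ≠ 1 := by rw [D.s0_inv_inv]; exact n1
    have n5 := D.s0_ne_inv
    have p1 : ¬ D.pos 1 := fun h => D.pos_ne_one h rfl
    by_cases h1 : s = 1
    · subst h1
      simp [n1.symm, n2.symm, p1]
    by_cases h2 : s * s = 1
    · have e : s ≠ D.s0 := by rintro rfl; exact n3 h2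
      have e' : s ≠ D.s0⁻¹ := by rintro rfl; exact n4 h2
      have q1 : ¬ D.pos s := fun h => h.1 h2
      have q2 : ¬ D.pos s⁻¹ := by
        intro h
        apply h.1
        rw [← mul_inv_rev, h2, inv_one]
      simp [h1, h2, e, e', q1, q2]
    by_cases h3 : s = D.s0
    · have q1 : ¬ D.pos s := fun h => h.2.1 h3
      have q2 : ¬ D.pos s⁻¹ := fun h => h.2.2.1 (by rw [h3])
      have e' : s ≠ D.s0⁻¹ := by rw [h3]; exact n5
      simp only [h1, h2, q1, q2, e', if_false, and_false]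
      simp [h3]
    by_cases h4 : s = D.s0⁻¹
    · have q1 : ¬ D.pos s := fun h => h.2.2.1 h4
      have q2 : ¬ D.pos s⁻¹ := fun h => h.2.1 (by rw [h4, inv_inv])
      simp only [h1, h2, q1, q2, h3, if_false, and_false]
      simp [h4]
    have g1 : s⁻¹ * s⁻¹ ≠ 1 := by
      rw [← mul_inv_rev]
      exact fun h => h2 (inv_eq_one.mp h)
    have g2 : s⁻¹ ≠ D.s0 := fun h => h4 (inv_eq_iff_eq_inv.mp h)
    have g3 : s⁻¹ ≠ D.s0⁻¹ := fun h => h3 (inv_injective h)
    by_cases h5 : D.enc s < D.enc s⁻¹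
    · have q1 : D.pos s := ⟨h2, h3, h4, h5⟩
      have q2 : ¬ D.pos s⁻¹ := by
        intro h
        have := h.2.2.2
        rw [inv_inv] at this
        exact absurd h5 (not_lt.mpr this.le)
      simp [h1, h2, h3, h4, q1, q2]
    · have q1 : ¬ D.pos s := fun h => h5 h.2.2.2
      have q2 : D.pos s⁻¹ := by
        refine ⟨g1, g2, g3, ?_⟩
        rw [inv_inv]
        refine lt_of_le_of_ne (not_lt.mp h5) ?_
        intro h
        have h7 := D.henc h
        apply h2
        nth_rewrite 1 [← h7]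
        simp
      simp [h1, h2, h3, h4, q1, q2]
  have h1 : Fintype.card Γ = ∑ s : Γ, 1 := by simp
  have h2 : ∑ s : Γ, (if D.pos s⁻¹ then 1 else 0) = ∑ s : Γ, (if D.pos s then 1 else 0) :=
    Equiv.sum_comp (Equiv.inv Γ) (fun s => if D.pos s then 1 else 0)
  have h3 : Fintype.card Γ = 1 + Fintype.card {t : Γ // t ≠ 1 ∧ t * t = 1} + 1 + 1
      + Fintype.card {s : Γ // D.pos s} + Fintype.card {s : Γ // D.pos s} := by
    rw [h1, Finset.sum_congr rfl (fun s _ => key s)]
    simp only [Finset.sum_add_distrib]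
    rw [h2]
    have hc : ∀ c : Γ, (Finset.univ.filter (fun i => i = c)).card = 1 :=
      fun c => Finset.card_eq_one.2 ⟨c, by ext z; simp⟩
    simp only [← Finset.card_filter, Fintype.card_subtype, hc]
  simp only [Nat.card_eq_fintype_card]
  omega

theorem card_used [Fintype Γ] [Fintype E] :
    Nat.card {ec : E × Γ // D.used ec.1 ec.2} = 4 * Nat.card {s : Γ // D.pos s} := by
  classical
  have hb : Function.Bijective (fun z : {s : Γ // D.pos s} × ZMod 2 × ZMod 2 =>
      (⟨(D.eps z.1.1 z.2.1, if z.2.2 = 0 then 1 else z.1.1⁻¹),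
        ⟨z.1.1, z.2.1, z.1.2, rfl, by
          simp only
          split_ifs
          · exact Or.inl rfl
          · exact Or.inr rfl⟩⟩ : {ec : E × Γ // D.used ec.1 ec.2})) := by
    constructor
    · rintro ⟨⟨s, hs⟩, a, b⟩ ⟨⟨s', hs'⟩, a', b'⟩ h
      simp only [Subtype.mk.injEq, Prod.mk.injEq] at h
      obtain ⟨h1, h2⟩ := h
      obtain ⟨rfl, rfl⟩ := D.heps _ _ _ _ h1
      have hne : s⁻¹ ≠ 1 := fun hh => D.pos_ne_one hs (inv_eq_one.mp hh)
      have hbb : b = b' := by
        have hd : ∀ b b' : ZMod 2, (b = 0 ↔ b' = 0) → b = b' := by decide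
        apply hd
        by_cases hb : b = 0 <;> by_cases hb' : b' = 0
        · simp [hb, hb']
        · simp only [hb, hb', if_true, if_false] at h2
          exact absurd h2.symm hne
        · simp only [hb, hb', if_true, if_false] at h2
          exact absurd h2 hne
        · simp [hb, hb']
      rw [hbb]
    · rintro ⟨⟨e, c⟩, s, a, hs, he, hc⟩
      simp only at he hc
      subst he
      rcases hc with rfl | rfl
      · exact ⟨⟨⟨s, hs⟩, a, 0⟩, by simp⟩
      · exact ⟨⟨⟨s, hs⟩, a, 1⟩, by simp⟩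
  rw [← Nat.card_eq_of_bijective _ hb, Nat.card_prod, Nat.card_prod]
  simp only [Nat.card_eq_fintype_card (α := ZMod 2), ZMod.card]
  omega

theorem card_colours [Fintype Γ] [Fintype E] :
    Nat.card E * Nat.card Γ = Nat.card Γ + Nat.card {ec : E × Γ // D.used ec.1 ec.2}
      + Nat.card {ec : E × Γ // ec.1 ≠ 0 ∧ ¬ D.used ec.1 ec.2} := by
  classical
  have key : ∀ ec : E × Γ, (1 : ℕ) = (if ec.1 = 0 then 1 else 0)
      + (if D.used ec.1 ec.2 then 1 else 0) + (if (ec.1 ≠ 0 ∧ ¬ D.used ec.1 ec.2) then 1 else 0) := by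
    rintro ⟨e, c⟩
    by_cases h1 : e = 0
    · have h2 : ¬ D.used e c := by
        rintro ⟨s, a, hs, he, -⟩
        exact D.heps0 s a (he ▸ h1)
      simp [h1] at h2 ⊢
      simp [h2]
    · by_cases h2 : D.used e c <;> simp [h1, h2]
  have h1 : Fintype.card (E × Γ) = ∑ _s : E × Γ, 1 := by simp
  have h2 : ∑ ec : E × Γ, (if ec.1 = 0 then 1 else 0) = Fintype.card Γ := by
    rw [Fintype.sum_prod_type]
    have h : ∀ e : E, ∑ _c : Γ, (if e = 0 then 1 else 0) = if e = 0 then Fintype.card Γ else 0 := by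
      intro e
      split_ifs <;> simp
    simp only [h]
    simp
  have h3 : Fintype.card (E × Γ) = Fintype.card Γ
      + Fintype.card {ec : E × Γ // D.used ec.1 ec.2}
      + Fintype.card {ec : E × Γ // ec.1 ≠ 0 ∧ ¬ D.used ec.1 ec.2} := by
    rw [h1, Finset.sum_congr rfl (fun s _ => key s)]
    simp only [Finset.sum_add_distrib]
    rw [h2]
    simp only [← Finset.card_filter, Fintype.card_subtype]
  rw [Fintype.card_prod] at h3
  simp only [Nat.card_eq_fintype_card]
  exact h3

theorem card_Y [Fintype Γ] [Fintype E] (m N' : ℕ) (hE : Nat.card E = 2 * m)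
    (hΓ : Nat.card Γ = 3 * N') :
    ∃ q, Odd q ∧ Nat.card D.Y = 3 * q ∧ Nat.card D.Y ≤ Nat.card E * Nat.card Γ := by
  have h1 := D.card_group
  have h2 := D.card_used
  have h3 := D.card_colours
  have h4 : Nat.card D.Y = Nat.card {t : Γ // t ≠ 1 ∧ t * t = 1}
      + Nat.card {ec : E × Γ // ec.1 ≠ 0 ∧ ¬ D.used ec.1 ec.2} := Nat.card_sum
  have h5 : Nat.card E * Nat.card Γ = 6 * (m * N') := by rw [hE, hΓ]; ring
  rw [h5] at h3 ⊢
  rw [h4]
  generalize Nat.card {t : Γ // t ≠ 1 ∧ t * t = 1} = τ at *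
  generalize Nat.card {s : Γ // D.pos s} = k at *
  generalize Nat.card {ec : E × Γ // ec.1 ≠ 0 ∧ ¬ D.used ec.1 ec.2} = R at *
  generalize Nat.card {ec : E × Γ // D.used ec.1 ec.2} = U at *
  generalize m * N' = P at *
  have h6 : k + 1 ≤ P := by omega
  refine ⟨2 * (P - k - 1) + 1, ⟨P - k - 1, rfl⟩, by omega, by omega⟩

end Data

/-- An injective action by automorphisms of a Steiner quasigroup. -/
theorem SQ.faithful {V H : Type*} [Group H] (Q : SQ V) (ψ : H →* Equiv.Perm V)
    (hψ : Function.Injective ψ) (h : ∀ g a b, ψ g (Q.T a b) = Q.T (ψ g a) (ψ g b)) :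
    Q.toSTS.FaithfulAction H := by
  refine ⟨ψ.codRestrict Q.toSTS.Aut (fun g => Q.mem_aut (ψ g) (h g)), ?_⟩
  intro a b hab
  apply hψ
  have := congrArg Subtype.val hab
  exact this

/-- The action of `Γ` by permutations. -/
def Data.actHom : Γ →* Equiv.Perm (D.Y ⊕ (Γ × E)) where
  toFun g :=
    { toFun := D.act g
      invFun := D.act g⁻¹
      left_inv := by rintro (y | w) <;> simp [Data.act]
      right_inv := by rintro (y | w) <;> simp [Data.act] }
  map_one' := by
    ext z
    rcases z with y | w <;> simp [Data.act]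
  map_mul' := by
    intro a b
    ext z
    rcases z with y | w <;> simp [Data.act, mul_assoc]

theorem Data.actHom_injective : Function.Injective D.actHom := by
  intro a b hab
  have h := congrArg (fun π : Equiv.Perm (D.Y ⊕ (Γ × E)) => π (Sum.inr (1, 0))) hab
  have h' : (Sum.inr (a * 1, (0 : E)) : D.Y ⊕ (Γ × E)) = Sum.inr (b * 1, 0) := h
  simpa using h'

/-- The data for a group with an element of order three, of order at most `2 ^ r`. -/
theorem exists_data (Γ : Type*) [Group Γ] [Finite Γ] (s0 : Γ) (hs0 : s0 ≠ 1)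
    (hs03 : s0 * s0 * s0 = 1) (r : ℕ) (hr : Nat.card Γ ≤ 2 ^ r) :
    Nonempty (Data Γ (ZMod 2 × (Option (Fin r) → ZMod 2))) := by
  classical
  have := Fintype.ofFinite Γ
  have hcard : Fintype.card Γ ≤ Fintype.card (Fin r → ZMod 2) := by
    rw [Fintype.card_fun, ZMod.card, Fintype.card_fin, ← Nat.card_eq_fintype_card]
    exact hr
  obtain ⟨ι⟩ := Function.Embedding.nonempty_of_card_le hcard
  have z1 : ∀ a : ZMod 2, a + a = 0 := by decide
  have z2 : ∀ a b c : ZMod 2, c ≠ 0 → (a + c = b ↔ ¬ a = b) := by decide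
  let j : (Option (Fin r) → ZMod 2) → Option (Fin r) :=
    fun f => if h : ∃ i, f i ≠ 0 then Classical.choose h else none
  have hj : ∀ f : Option (Fin r) → ZMod 2, f ≠ 0 → f (j f) ≠ 0 := by
    intro f hf
    have h : ∃ i, f i ≠ 0 := by
      by_contra hc
      push Not at hc
      exact hf (funext hc)
    simp only [j, dif_pos h]
    exact Classical.choose_spec h
  refine ⟨{
    s0 := s0
    hs0 := hs0
    hs03 := hs03
    enc := fun g => (Fintype.equivFin Γ g).val
    henc := Fin.val_injective.comp (Fintype.equivFin Γ).injective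
    two := ?_
    o := fun e p => (e.1 ≠ 0 ∧ p.1 = e.2 none) ∨ (e.1 = 0 ∧ p.2 (j e.2) = 1)
    ho := ?_
    side := fun p => p.1
    eps := fun s a => (1, fun o => o.elim a (ι s))
    heps := ?_
    heps0 := ?_
    hside := ?_ }⟩
  · rintro ⟨a, f⟩
    refine Prod.ext (z1 a) (funext fun i => z1 (f i))
  · rintro ⟨a, f⟩ he ⟨b, g⟩
    by_cases ha : a = 0
    · subst ha
      have hf : f ≠ 0 := by
        rintro rfl
        exact he rfl
      have h1 := z2 (g (j f)) 1 (f (j f)) (hj f hf)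
      simpa using h1
    · have h1 := z2 b (f none) a ha
      simpa [ha] using h1
  · intro s a s' a' h
    have h2 := (Prod.mk.injEq _ _ _ _).mp h
    have h3 := congrFun h2.2 none
    have h4 : ι s = ι s' := by
      funext i
      exact congrFun h2.2 (some i)
    exact ⟨ι.injective h4, h3⟩
  · intro s a h
    have := congrArg Prod.fst h
    simp at this
  · intro s a p
    simp

theorem exists_sts_aux (Γ : Type*) [Group Γ] [Finite Γ] (s0 : Γ) (hs0 : s0 ≠ 1)
    (hs03 : s0 * s0 * s0 = 1) :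
    ∃ (v : ℕ) (X : STS (Fin v)), v ≤ 16 * Nat.card Γ ^ 2 ∧ X.FaithfulAction Γ := by
  classical
  have := Fintype.ofFinite Γ
  have hpos : Nat.card Γ ≠ 0 := Nat.card_pos.ne'
  set r := Nat.log 2 (Nat.card Γ) + 1 with hr
  have hr1 : Nat.card Γ ≤ 2 ^ r := (Nat.lt_pow_succ_log_self (by norm_num) _).le
  have hr2 : 2 ^ r ≤ 2 * Nat.card Γ := by
    rw [hr, pow_succ, mul_comm]
    exact Nat.mul_le_mul_left _ (Nat.pow_log_le_self 2 hpos)
  obtain ⟨D⟩ := exists_data Γ s0 hs0 hs03 r hr1
  have hE : Nat.card (ZMod 2 × (Option (Fin r) → ZMod 2)) = 2 * (2 * 2 ^ r) := by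
    simp only [Nat.card_eq_fintype_card, Fintype.card_prod, Fintype.card_fun, ZMod.card,
      Fintype.card_option, Fintype.card_fin]
    ring
  have h3 : 3 ∣ Nat.card Γ := by
    have ho : orderOf s0 = 3 := by
      apply orderOf_eq_prime _ hs0
      rw [pow_succ, pow_two]
      exact hs03
    rw [← ho]
    exact orderOf_dvd_natCard s0
  obtain ⟨N', hN'⟩ := h3
  obtain ⟨q, hq, hY, hYle⟩ := D.card_Y (2 * 2 ^ r) N' hE hN'
  have hYf : Fintype.card D.Y = 3 * q := by rw [← Nat.card_eq_fintype_card]; exact hY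
  obtain ⟨Q⟩ := exists_sq_of_card (V := D.Y) q hq hYf
  let Z := D.Y ⊕ (Γ × (ZMod 2 × (Option (Fin r) → ZMod 2)))
  let e : Z ≃ Fin (Fintype.card Z) := Fintype.equivFin Z
  refine ⟨Fintype.card Z, ((D.sq Q).transport e).toSTS, ?_, ?_⟩
  · have h1 : Fintype.card Z = Nat.card D.Y
        + Nat.card Γ * Nat.card (ZMod 2 × (Option (Fin r) → ZMod 2)) := by
      simp only [Z, Fintype.card_sum, Fintype.card_prod, Nat.card_eq_fintype_card]
    rw [h1]
    have h2 : Nat.card (ZMod 2 × (Option (Fin r) → ZMod 2)) ≤ 8 * Nat.card Γ := by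
      rw [hE]; omega
    calc Nat.card D.Y + Nat.card Γ * Nat.card (ZMod 2 × (Option (Fin r) → ZMod 2))
        ≤ Nat.card (ZMod 2 × (Option (Fin r) → ZMod 2)) * Nat.card Γ
          + Nat.card Γ * Nat.card (ZMod 2 × (Option (Fin r) → ZMod 2)) := by
          exact Nat.add_le_add_right hYle _
      _ = 2 * (Nat.card (ZMod 2 × (Option (Fin r) → ZMod 2)) * Nat.card Γ) := by ring
      _ ≤ 2 * (8 * Nat.card Γ * Nat.card Γ) := by
          exact Nat.mul_le_mul_left _ (Nat.mul_le_mul_right _ h2)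
      _ = 16 * Nat.card Γ ^ 2 := by ring
  · refine SQ.faithful _ ((e.permCongrHom).toMonoidHom.comp D.actHom) ?_ ?_
    · exact (e.permCongrHom).injective.comp D.actHom_injective
    · intro g a b
      change e (D.act g (e.symm (e (D.T Q (e.symm a) (e.symm b)))))
        = e (D.T Q (e.symm (e (D.act g (e.symm a)))) (e.symm (e (D.act g (e.symm b)))))
      simp only [Equiv.symm_apply_apply]
      rw [D.T_act]

theorem STS.FaithfulAction.of_injective {V H G : Type*} [Group H] [Group G] {X : STS V}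
    (h : X.FaithfulAction H) (f : G →* H) (hf : Function.Injective f) : X.FaithfulAction G := by
  obtain ⟨φ, hφ⟩ := h
  exact ⟨φ.comp f, hφ.comp hf⟩

/-- The quadratic bound. -/
theorem exists_sts (G : Type*) [Group G] [Finite G] :
    ∃ (v : ℕ) (X : STS (Fin v)), v ≤ 144 * Nat.card G ^ 2 ∧ X.FaithfulAction G := by
  obtain ⟨v, X, hv, hX⟩ := exists_sts_aux (G × Multiplicative (ZMod 3))
    (1, Multiplicative.ofAdd 1) (by
      intro h
      have h1 : Multiplicative.ofAdd (1 : ZMod 3) = 1 := congrArg Prod.snd h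
      exact absurd h1 (by decide)) (by
      refine Prod.ext (by simp) ?_
      change Multiplicative.ofAdd (1 : ZMod 3) * Multiplicative.ofAdd 1 * Multiplicative.ofAdd 1 = 1
      decide)
  refine ⟨v, X, ?_, hX.of_injective (MonoidHom.inl G (Multiplicative (ZMod 3))) ?_⟩
  · rw [Nat.card_prod] at hv
    have h3 : Nat.card (Multiplicative (ZMod 3)) = 3 := by
      rw [Nat.card_eq_fintype_card]
      rfl
    rw [h3] at hv
    calc v ≤ 16 * (Nat.card G * 3) ^ 2 := hv
      _ = 144 * Nat.card G ^ 2 := by ring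
  · intro a b h
    have := congrArg Prod.fst h
    simpa using this

/-- The Steiner triple system with one point. -/
def onePoint : STS (Fin 1) where
  blocks := ∅
  card_three := by simp
  unique_block := by
    intro x y hxy
    exact absurd (Subsingleton.elim x y) hxy

theorem exists_sts_pow (G : Type*) [Group G] [Finite G] :
    ∃ (v : ℕ) (X : STS (Fin v)), v ≤ Nat.card G ^ 10 ∧ X.FaithfulAction G := by
  by_cases h : Nat.card G = 1
  · refine ⟨1, onePoint, by rw [h]; norm_num, 1, ?_⟩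
    have : Subsingleton G := (Nat.card_eq_one_iff_unique.mp h).1
    exact Function.injective_of_subsingleton _
  · obtain ⟨v, X, hv, hX⟩ := exists_sts G
    refine ⟨v, X, hv.trans ?_, hX⟩
    have h0 : Nat.card G ≠ 0 := Nat.card_pos.ne'
    have h2 : 2 ≤ Nat.card G := by omega
    calc 144 * Nat.card G ^ 2 ≤ 2 ^ 8 * Nat.card G ^ 2 := Nat.mul_le_mul_right _ (by norm_num)
      _ ≤ Nat.card G ^ 8 * Nat.card G ^ 2 :=
          Nat.mul_le_mul_right _ (Nat.pow_le_pow_left h2 8)
      _ = Nat.card G ^ 10 := by ring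

theorem main.{u} :
    (∃ c : ℕ, ∀ (G : Type u) [Group G] [Finite G],
      ∃ (v : ℕ) (X : STS (Fin v)), v ≤ Nat.card G ^ c ∧ X.FaithfulAction G) ∧
    (∀ (G : Type u) [Group G] [Finite G],
      ∃ (v : ℕ) (X : STS (Fin v)), v ≤ 144 * Nat.card G ^ 2 ∧ X.FaithfulAction G) :=
  ⟨⟨10, fun G _ _ => exists_sts_pow G⟩, fun G _ _ => exists_sts G⟩

end Pool.Agent.H1.STSGroup
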